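import Pool.Agent.V11151.Poly

/-!
# f-vectors under full versus rotational tetrahedral symmetry

There is a polytope that is symmetric under the rotation group of the regular tetrahedron, whose
f-vector is not the f-vector of any polytope symmetric under the full symmetry group of the regular
tetrahedron.
-/

namespace Pool.Agent.Results.MP_52b7e0_co.TetraDiffer

open Pool.Agent.V11151.Poly

/-- Three-dimensional space. -/
abbrev E3 := Fin 3 → ℝ

/-- A 3-polytope: the convex hull of a finite set, with nonempty interior. -/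
def IsPolytope (P : Set E3) : Prop :=
  (∃ s : Set E3, s.Finite ∧ P = convexHull ℝ s) ∧ (interior P).Nonempty

/-- The facets of a polytope: the (exposed) faces of dimension 2. -/
def facets (P : Set E3) : Set (Set E3) :=
  {F | IsExposed ℝ P F ∧ Module.finrank ℝ (vectorSpan ℝ F) = 2}

/-- The number of vertices and the number of facets. -/
noncomputable def fvec (P : Set E3) : ℕ × ℕ := ((P.extremePoints ℝ).ncard, (facets P).ncard)

/-- The set `F(G)` of the f-vectors of the 3-polytopes that are symmetric under all the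
matrices in `G`. -/
def FSet (G : Set (Matrix (Fin 3) (Fin 3) ℝ)) : Set (ℕ × ℕ) :=
  {p | ∃ P, IsPolytope P ∧ (∀ A ∈ G, A.mulVec '' P = P) ∧ fvec P = p}

/-- The vertices of a regular tetrahedron centred at the origin. -/
def tetra : Set E3 := {![1, 1, 1], ![1, -1, -1], ![-1, 1, -1], ![-1, -1, 1]}

/-- The full symmetry group of the regular tetrahedron: the orthogonal matrices that map its set
of vertices onto itself. -/
def Tfull : Set (Matrix (Fin 3) (Fin 3) ℝ) :=
  {A | A ∈ Matrix.orthogonalGroup (Fin 3) ℝ ∧ A.mulVec '' tetra = tetra}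

/-- The rotation group of the regular tetrahedron. -/
def Trot : Set (Matrix (Fin 3) (Fin 3) ℝ) := {A | A ∈ Tfull ∧ A.det = 1}

/-! ### Part 1: the polytope with 12 vertices and at least 20 facets -/

/-- the vertices -/
def V0 : Fin 12 → Fin 3 → ℤ := ![![-2, 0, -1], ![-2, 0, 1], ![-1, -2, 0], ![-1, 2, 0], ![0, -1, -2],
  ![0, -1, 2], ![0, 1, -2], ![0, 1, 2], ![1, -2, 0], ![1, 2, 0], ![2, 0, -1], ![2, 0, 1]]

/-- the facet normals -/
def N0 : Fin 20 → Fin 3 → ℤ := ![![1, 1, 1], ![1, 1, -1], ![1, -1, 1], ![1, -1, -1], ![-1, 1, 1],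
  ![-1, 1, -1], ![-1, -1, 1], ![-1, -1, -1], ![1, 0, 2], ![0, 2, 1], ![2, 1, 0], ![1, 0, -2],
  ![0, -2, 1], ![-2, 1, 0], ![-1, 0, 2], ![0, 2, -1], ![2, -1, 0], ![-1, 0, -2], ![0, -2, -1],
  ![-2, -1, 0]]

/-- the facet heights -/
def m0 : Fin 20 → ℤ := ![3, 3, 3, 3, 3, 3, 3, 3, 4, 4, 4, 4, 4, 4, 4, 4, 4, 4, 4, 4]

/-- the facet triples -/
def t0 : Fin 20 → Fin 3 → Fin 12 := ![![7, 9, 11], ![6, 9, 10], ![5, 8, 11], ![4, 8, 10],
  ![1, 3, 7], ![0, 3, 6], ![1, 2, 5], ![0, 2, 4], ![5, 7, 11], ![3, 7, 9], ![9, 10, 11],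
  ![4, 6, 10], ![2, 5, 8], ![0, 1, 3], ![1, 5, 7], ![3, 6, 9], ![8, 10, 11], ![0, 4, 6],
  ![2, 4, 8], ![0, 1, 2]]

/-- integer scalar product -/
def idot (x y : Fin 3 → ℤ) : ℤ := x 0 * y 0 + x 1 * y 1 + x 2 * y 2

/-- a real point from an integer point -/
def pt (x : Fin 3 → ℤ) : E3 := fun i => (x i : ℝ)

lemma pt_inj {x y : Fin 3 → ℤ} (h : pt x = pt y) : x = y := by
  funext i
  have := congrFun h i
  simpa [pt] using this

/-- the linear functional with given integer coefficients -/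
noncomputable def fn (n : Fin 3 → ℤ) : StrongDual ℝ E3 :=
  LinearMap.toContinuousLinearMap
    { toFun := fun x => (n 0 : ℝ) * x 0 + (n 1 : ℝ) * x 1 + (n 2 : ℝ) * x 2
      map_add' := by intro x y; simp only [Pi.add_apply]; ring
      map_smul' := by
        intro c x
        simp only [Pi.smul_apply, smul_eq_mul, RingHom.id_apply]; ring }

lemma fn_apply (n : Fin 3 → ℤ) (x : E3) :
    fn n x = (n 0 : ℝ) * x 0 + (n 1 : ℝ) * x 1 + (n 2 : ℝ) * x 2 := rfl

lemma fn_pt (n x : Fin 3 → ℤ) : fn n (pt x) = (idot n x : ℝ) := by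
  rw [fn_apply]; unfold idot pt; push_cast; ring

/-- the polytope -/
def P0 : Set E3 := convexHull ℝ (Set.range fun i => pt (V0 i))

lemma range_finite : (Set.range fun i => pt (V0 i)).Finite := Set.finite_range _

lemma V0_inj : Function.Injective (fun i => pt (V0 i)) := by
  intro i j h
  have h1 := pt_inj h
  have : ∀ i j, V0 i = V0 j → i = j := by decide +kernel
  exact this i j h1

lemma ext0 : P0.extremePoints ℝ = Set.range fun i => pt (V0 i) := by
  apply Set.Subset.antisymm extremePoints_convexHull_subset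
  rintro _ ⟨i, rfl⟩
  refine mem_extreme_of_functional ⟨i, rfl⟩ (fn (V0 i)) ?_
  rintro _ ⟨j, rfl⟩ hne
  rw [fn_pt, fn_pt]
  have : ∀ i j, j ≠ i → idot (V0 i) (V0 j) < idot (V0 i) (V0 i) := by decide +kernel
  have hji : j ≠ i := fun h => hne (by rw [h])
  exact_mod_cast this i j hji

lemma card0 : (P0.extremePoints ℝ).ncard = 12 := by
  rw [ext0, ← Set.image_univ, Set.ncard_image_of_injective _ V0_inj, Set.ncard_univ]
  simp

/-- the vertices of a facet -/
def B0 (k : Fin 20) : Set E3 := {x | ∃ i, idot (N0 k) (V0 i) = m0 k ∧ x = pt (V0 i)}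

/-- a facet -/
def F0 (k : Fin 20) : Set E3 := convexHull ℝ (B0 k)

lemma F0_exposed (k : Fin 20) : IsExposed ℝ P0 (F0 k) := by
  refine exposed_of_functional (fn (N0 k)) (m0 k) ?_ ?_ ?_
  · rintro _ ⟨i, _, rfl⟩
    exact ⟨i, rfl⟩
  · rintro _ ⟨i, hi, rfl⟩
    rw [fn_pt, hi]
  · rintro _ ⟨i, rfl⟩ hi
    rw [fn_pt]
    have h1 : ∀ k i, idot (N0 k) (V0 i) ≤ m0 k := by decide +kernel
    have h2 := h1 k i
    have h3 : idot (N0 k) (V0 i) ≠ m0 k := fun h => hi ⟨i, h, rfl⟩
    exact_mod_cast lt_of_le_of_ne h2 h3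

/-- two integer vectors with nonzero vector product are linearly independent -/
lemma indep {u w : Fin 3 → ℤ} (h : u 1 * w 2 - u 2 * w 1 ≠ 0 ∨ u 2 * w 0 - u 0 * w 2 ≠ 0 ∨
    u 0 * w 1 - u 1 * w 0 ≠ 0) : LinearIndependent ℝ ![pt u, pt w] := by
  rw [LinearIndependent.pair_iff]
  intro s t hst
  have e0 := congrFun hst 0
  have e1 := congrFun hst 1
  have e2 := congrFun hst 2
  simp only [Pi.add_apply, Pi.smul_apply, pt, smul_eq_mul, Pi.zero_apply] at e0 e1 e2
  have key : ∀ a b c d : ℤ, s * (a : ℝ) + t * (b : ℝ) = 0 → s * (c : ℝ) + t * (d : ℝ) = 0 →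
      a * d - c * b ≠ 0 → s = 0 ∧ t = 0 := by
    intro a b c d h1 h2 h3
    have h3' : ((a : ℝ) * d - c * b) ≠ 0 := by exact_mod_cast h3
    constructor
    · have : s * ((a : ℝ) * d - c * b) = 0 := by linear_combination (d : ℝ) * h1 - (b : ℝ) * h2
      exact (mul_eq_zero.1 this).resolve_right h3'
    · have : t * ((a : ℝ) * d - c * b) = 0 := by linear_combination (-(c : ℝ)) * h1 + (a : ℝ) * h2
      exact (mul_eq_zero.1 this).resolve_right h3'
  rcases h with h | h | h
  · exact key _ _ _ _ e1 e2 h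
  · exact key _ _ _ _ e2 e0 h
  · exact key _ _ _ _ e0 e1 h

lemma F0_dim (k : Fin 20) : Module.finrank ℝ (vectorSpan ℝ (F0 k)) = 2 := by
  have hmem : ∀ j : Fin 3, pt (V0 (t0 k j)) ∈ F0 k := by
    intro j
    apply subset_convexHull
    refine ⟨t0 k j, ?_, rfl⟩
    have : ∀ k j, idot (N0 k) (V0 (t0 k j)) = m0 k := by decide +kernel
    exact this k j
  let u : Fin 3 → ℤ := V0 (t0 k 1) - V0 (t0 k 0)
  let w : Fin 3 → ℤ := V0 (t0 k 2) - V0 (t0 k 0)
  have hu : pt u ∈ vectorSpan ℝ (F0 k) := by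
    have : pt u = pt (V0 (t0 k 1)) -ᵥ pt (V0 (t0 k 0)) := by
      funext i; simp [pt, u]
    rw [this]
    exact vsub_mem_vectorSpan ℝ (hmem 1) (hmem 0)
  have hw : pt w ∈ vectorSpan ℝ (F0 k) := by
    have : pt w = pt (V0 (t0 k 2)) -ᵥ pt (V0 (t0 k 0)) := by
      funext i; simp [pt, w]
    rw [this]
    exact vsub_mem_vectorSpan ℝ (hmem 2) (hmem 0)
  have hind : LinearIndependent ℝ ![pt u, pt w] := by
    apply indep
    have : ∀ k : Fin 20, (V0 (t0 k 1) - V0 (t0 k 0)) 1 * (V0 (t0 k 2) - V0 (t0 k 0)) 2 -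
      (V0 (t0 k 1) - V0 (t0 k 0)) 2 * (V0 (t0 k 2) - V0 (t0 k 0)) 1 ≠ 0 ∨
      (V0 (t0 k 1) - V0 (t0 k 0)) 2 * (V0 (t0 k 2) - V0 (t0 k 0)) 0 -
      (V0 (t0 k 1) - V0 (t0 k 0)) 0 * (V0 (t0 k 2) - V0 (t0 k 0)) 2 ≠ 0 ∨
      (V0 (t0 k 1) - V0 (t0 k 0)) 0 * (V0 (t0 k 2) - V0 (t0 k 0)) 1 -
      (V0 (t0 k 1) - V0 (t0 k 0)) 1 * (V0 (t0 k 2) - V0 (t0 k 0)) 0 ≠ 0 := by decide +kernel
    exact this k
  apply le_antisymm
  · have hsub : vectorSpan ℝ (F0 k) ≤ LinearMap.ker (fn (N0 k) : E3 →ₗ[ℝ] ℝ) := by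
      rw [F0, ← direction_affineSpan, affineSpan_convexHull, direction_affineSpan]
      rw [vectorSpan_def, Submodule.span_le]
      rintro _ ⟨_, ⟨i, hi, rfl⟩, _, ⟨j, hj, rfl⟩, rfl⟩
      simp only [vsub_eq_sub, SetLike.mem_coe, LinearMap.mem_ker, ContinuousLinearMap.coe_coe]
      rw [map_sub, fn_pt, fn_pt, hi, hj, sub_self]
    have hne : (fn (N0 k) : E3 →ₗ[ℝ] ℝ) ≠ 0 := by
      intro h0
      have h1 := LinearMap.congr_fun h0 (pt (N0 k))
      simp only [ContinuousLinearMap.coe_coe, LinearMap.zero_apply] at h1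
      rw [fn_pt] at h1
      have h2 : ∀ k, idot (N0 k) (N0 k) ≠ 0 := by decide +kernel
      exact h2 k (by exact_mod_cast h1)
    have hrank : Module.finrank ℝ (LinearMap.ker (fn (N0 k) : E3 →ₗ[ℝ] ℝ)) = 2 := by
      have h1 := LinearMap.finrank_range_add_finrank_ker (fn (N0 k) : E3 →ₗ[ℝ] ℝ)
      have h2 : LinearMap.range (fn (N0 k) : E3 →ₗ[ℝ] ℝ) = ⊤ := LinearMap.range_eq_top.2
        (LinearMap.surjective hne)
      rw [h2] at h1
      simp only [finrank_top, Module.finrank_self, Module.finrank_fintype_fun_eq_card,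
        Fintype.card_fin] at h1
      omega
    calc Module.finrank ℝ (vectorSpan ℝ (F0 k)) ≤ _ := Submodule.finrank_mono hsub
      _ = 2 := hrank
  · have h1 : Submodule.span ℝ (Set.range ![pt u, pt w]) ≤ vectorSpan ℝ (F0 k) := by
      rw [Submodule.span_le]
      rintro _ ⟨i, rfl⟩
      fin_cases i
      · exact hu
      · exact hw
    have h2 := finrank_span_eq_card hind
    have h3 := Submodule.finrank_mono h1
    rw [h2] at h3
    simpa using h3

lemma F0_inj : Function.Injective F0 := by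
  intro k l h
  have h1 : ∀ i, pt (V0 i) ∈ F0 k ↔ idot (N0 k) (V0 i) = m0 k := by
    intro i
    constructor
    · intro hi
      have : F0 k ⊆ {x | fn (N0 k) x = m0 k} := by
        refine convexHull_min ?_ (convex_hyperplane (fn (N0 k) : E3 →ₗ[ℝ] ℝ).isLinear _)
        rintro _ ⟨i, hi, rfl⟩
        show fn (N0 k) (pt (V0 i)) = m0 k
        rw [fn_pt, hi]
      have h2 := this hi
      simp only [Set.mem_ofPred_eq] at h2
      rw [fn_pt] at h2
      exact_mod_cast h2
    · intro hi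
      exact subset_convexHull ℝ _ ⟨i, hi, rfl⟩
  have h1' : ∀ i, pt (V0 i) ∈ F0 l ↔ idot (N0 l) (V0 i) = m0 l := by
    intro i
    constructor
    · intro hi
      have : F0 l ⊆ {x | fn (N0 l) x = m0 l} := by
        refine convexHull_min ?_ (convex_hyperplane (fn (N0 l) : E3 →ₗ[ℝ] ℝ).isLinear _)
        rintro _ ⟨i, hi, rfl⟩
        show fn (N0 l) (pt (V0 i)) = m0 l
        rw [fn_pt, hi]
      have h2 := this hi
      simp only [Set.mem_ofPred_eq] at h2
      rw [fn_pt] at h2
      exact_mod_cast h2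
    · intro hi
      exact subset_convexHull ℝ _ ⟨i, hi, rfl⟩
  have h3 : ∀ i, idot (N0 k) (V0 i) = m0 k ↔ idot (N0 l) (V0 i) = m0 l := by
    intro i
    rw [← h1, ← h1', h]
  have h4 : ∀ k l : Fin 20, (∀ i, idot (N0 k) (V0 i) = m0 k ↔ idot (N0 l) (V0 i) = m0 l) →
      k = l := by decide +kernel
  exact h4 k l h3

lemma facets0 : 20 ≤ (facets P0).ncard := by
  have h1 : Set.range F0 ⊆ facets P0 := by
    rintro _ ⟨k, rfl⟩
    exact ⟨F0_exposed k, F0_dim k⟩
  have h2 : (facets P0).Finite := (finite_faces range_finite).subset (fun F hF => hF.1)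
  have h3 := Set.ncard_le_ncard h1 h2
  rw [← Set.image_univ, Set.ncard_image_of_injective _ F0_inj, Set.ncard_univ] at h3
  simpa using h3

lemma polytope0 : IsPolytope P0 := by
  refine ⟨⟨_, range_finite, rfl⟩, ?_⟩
  unfold P0
  rw [interior_convexHull_nonempty_iff_affineSpan_eq_top]
  rw [AffineSubspace.affineSpan_eq_top_iff_vectorSpan_eq_top_of_nonempty _ _ _
    (Set.range_nonempty _)]
  have key : ∀ j : Fin 3, Pi.single j (1 : ℝ) ∈
      vectorSpan ℝ (Set.range fun i => pt (V0 i)) := by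
    intro j
    have hd : ∀ j : Fin 3, ∃ a b : Fin 12, ∀ i, V0 a i - V0 b i = if i = j then 2 else 0 := by
      decide +kernel
    obtain ⟨a, b, hab⟩ := hd j
    have h1 : (pt (V0 a) -ᵥ pt (V0 b)) ∈ vectorSpan ℝ (Set.range fun i => pt (V0 i)) :=
      vsub_mem_vectorSpan ℝ ⟨a, rfl⟩ ⟨b, rfl⟩
    have h2 : (Pi.single j (1 : ℝ) : E3) = (1 / 2 : ℝ) • (pt (V0 a) -ᵥ pt (V0 b)) := by
      funext i
      have := hab i
      have h3 : ((V0 a i : ℝ) - (V0 b i : ℝ)) = if i = j then 2 else 0 := by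
        exact_mod_cast this
      simp only [Pi.smul_apply, vsub_eq_sub, Pi.sub_apply, pt, h3, smul_eq_mul, Pi.single_apply]
      split_ifs <;> norm_num
    rw [h2]
    exact Submodule.smul_mem _ _ h1
  rw [eq_top_iff]
  intro x _
  have : x = ∑ j : Fin 3, x j • (Pi.single j (1 : ℝ) : E3) := by
    funext i
    simp [Finset.sum_apply, Pi.single_apply]
  rw [this]
  exact Submodule.sum_mem _ (fun j _ => Submodule.smul_mem _ _ (key j))

/-- the vertices of the tetrahedron -/
def tv : Fin 4 → Fin 3 → ℤ := ![![1, 1, 1], ![1, -1, -1], ![-1, 1, -1], ![-1, -1, 1]]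

lemma tetra_eq : tetra = Set.range fun i => pt (tv i) := by
  ext x
  simp only [tetra, Set.mem_insert_iff, Set.mem_singleton_iff, Set.mem_range]
  have h0 : (![1, 1, 1] : E3) = pt (tv 0) := by funext i; fin_cases i <;> simp [pt, tv]
  have h1 : (![1, -1, -1] : E3) = pt (tv 1) := by funext i; fin_cases i <;> simp [pt, tv]
  have h2 : (![-1, 1, -1] : E3) = pt (tv 2) := by funext i; fin_cases i <;> simp [pt, tv]
  have h3 : (![-1, -1, 1] : E3) = pt (tv 3) := by funext i; fin_cases i <;> simp [pt, tv]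
  rw [h0, h1, h2, h3]
  constructor
  · rintro (h | h | h | h)
    · exact ⟨0, h.symm⟩
    · exact ⟨1, h.symm⟩
    · exact ⟨2, h.symm⟩
    · exact ⟨3, h.symm⟩
  · rintro ⟨i, rfl⟩
    fin_cases i <;> simp

/-- four times the matrix with given images of the vertices of the tetrahedron -/
def M4 (σ : Fin 4 → Fin 4) (i j : Fin 3) : ℤ :=
  tv (σ 0) i * tv 0 j + tv (σ 1) i * tv 1 j + tv (σ 2) i * tv 2 j + tv (σ 3) i * tv 3 j

/-- an explicit determinant -/
def det3 (M : Fin 3 → Fin 3 → ℤ) : ℤ :=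
  M 0 0 * M 1 1 * M 2 2 - M 0 0 * M 1 2 * M 2 1 - M 0 1 * M 1 0 * M 2 2 + M 0 1 * M 1 2 * M 2 0 +
    M 0 2 * M 1 0 * M 2 1 - M 0 2 * M 1 1 * M 2 0

lemma check0 : ∀ σ : Fin 4 → Fin 4, det3 (M4 σ) = 64 →
    ∀ i : Fin 12, ∃ j : Fin 12, ∀ a : Fin 3, idot (M4 σ a) (V0 i) = 4 * V0 j a := by
  decide +kernel

lemma sym0 (A : Matrix (Fin 3) (Fin 3) ℝ) (hA : A ∈ Trot) : A.mulVec '' P0 = P0 := by
  obtain ⟨⟨hO, ht⟩, hdet⟩ := hA
  have h1 : ∀ i, ∃ j, A.mulVec (pt (tv i)) = pt (tv j) := by
    intro i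
    have h2 : A.mulVec (pt (tv i)) ∈ A.mulVec '' tetra := by
      refine ⟨_, ?_, rfl⟩
      rw [tetra_eq]
      exact ⟨i, rfl⟩
    rw [ht, tetra_eq] at h2
    obtain ⟨j, hj⟩ := h2
    exact ⟨j, hj.symm⟩
  choose σ hσ using h1
  have e : ∀ i a, A a 0 * (tv i 0 : ℝ) + A a 1 * (tv i 1 : ℝ) + A a 2 * (tv i 2 : ℝ) =
      (tv (σ i) a : ℝ) := by
    intro i a
    have := congrFun (hσ i) a
    simp only [Matrix.mulVec, dotProduct, Fin.sum_univ_three, pt] at this
    exact this
  have hAM : ∀ a b, 4 * A a b = (M4 σ a b : ℝ) := by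
    intro a b
    have e0 := e 0 a
    have e1 := e 1 a
    have e2 := e 2 a
    have e3 := e 3 a
    unfold M4
    push_cast
    rw [← e0, ← e1, ← e2, ← e3]
    fin_cases b <;> simp [tv] <;> ring
  have hd : det3 (M4 σ) = 64 := by
    have : (det3 (M4 σ) : ℝ) = 64 * A.det := by
      rw [Matrix.det_fin_three]
      unfold det3
      push_cast
      rw [← hAM, ← hAM, ← hAM, ← hAM, ← hAM, ← hAM, ← hAM, ← hAM, ← hAM]
      ring
    rw [hdet] at this
    exact_mod_cast this
  have hV : ∀ i, A.mulVec (pt (V0 i)) ∈ Set.range fun i => pt (V0 i) := by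
    intro i
    obtain ⟨j, hj⟩ := check0 σ hd i
    refine ⟨j, ?_⟩
    funext a
    have h4 : ((idot (M4 σ a) (V0 i) : ℤ) : ℝ) = 4 * (V0 j a : ℝ) := by exact_mod_cast hj a
    unfold idot at h4
    push_cast at h4
    rw [← hAM, ← hAM, ← hAM] at h4
    simp only [Matrix.mulVec, dotProduct, Fin.sum_univ_three, pt]
    linarith
  have hinj : Function.Injective A.mulVec := by
    have h5 : star A * A = 1 := (Matrix.mem_orthogonalGroup_iff' (Fin 3) ℝ).1 hO
    intro x y hxy
    have h6 := congrArg (star A).mulVec hxy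
    rw [Matrix.mulVec_mulVec, Matrix.mulVec_mulVec, h5, Matrix.one_mulVec, Matrix.one_mulVec] at h6
    exact h6
  have himg : A.mulVec '' (Set.range fun i => pt (V0 i)) = Set.range fun i => pt (V0 i) := by
    apply Set.eq_of_subset_of_ncard_le
    · rintro _ ⟨_, ⟨i, rfl⟩, rfl⟩
      exact hV i
    · rw [Set.ncard_image_of_injective _ hinj]
    · exact range_finite
  have h7 := (Matrix.mulVecLin A).image_convexHull (Set.range fun i => pt (V0 i))
  have h8 : (⇑(Matrix.mulVecLin A) : E3 → E3) = A.mulVec := rfl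
  rw [h8, himg] at h7
  exact h7

/-! ### Part 2: polytopes with 12 vertices and full tetrahedral symmetry -/

/-- every point can be moved to the closed fundamental chamber -/
lemma chamber (Q : ℝ → ℝ → ℝ → Prop) (h12 : ∀ a b c, Q b a c → Q a b c)
    (h23 : ∀ a b c, Q a c b → Q a b c) (hn : ∀ a b c, Q (-a) (-b) c → Q a b c)
    (hC : ∀ a b c, b ≤ a → |c| ≤ b → Q a b c) : ∀ a b c, Q a b c := by
  have h13 : ∀ a b c, Q c b a → Q a b c := fun a b c h => h12 _ _ _ (h23 _ _ _ (h12 _ _ _ h))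
  have hn23 : ∀ a b c, Q a (-b) (-c) → Q a b c := fun a b c h =>
    h13 _ _ _ (hn _ _ _ (h13 _ _ _ h))
  have hn13 : ∀ a b c, Q (-a) b (-c) → Q a b c := fun a b c h =>
    h12 _ _ _ (hn23 _ _ _ (h12 _ _ _ h))
  have step1 : ∀ a b c, |b| ≤ |a| → |c| ≤ |b| → Q a b c := by
    intro a b c h1 h2
    rcases le_total 0 a with ha | ha <;> rcases le_total 0 b with hb | hb
    · rw [abs_of_nonneg ha, abs_of_nonneg hb] at h1
      rw [abs_of_nonneg hb] at h2
      exact hC a b c h1 h2
    · rw [abs_of_nonneg ha, abs_of_nonpos hb] at h1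
      rw [abs_of_nonpos hb] at h2
      exact hn23 _ _ _ (hC a (-b) (-c) h1 (by rw [abs_neg]; exact h2))
    · rw [abs_of_nonpos ha, abs_of_nonneg hb] at h1
      rw [abs_of_nonneg hb] at h2
      exact hn13 _ _ _ (hC (-a) b (-c) h1 (by rw [abs_neg]; exact h2))
    · rw [abs_of_nonpos ha, abs_of_nonpos hb] at h1
      rw [abs_of_nonpos hb] at h2
      exact hn _ _ _ (hC (-a) (-b) c h1 h2)
  intro a b c
  rcases le_total |a| |b| with h1 | h1 <;> rcases le_total |b| |c| with h2 | h2 <;>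
    rcases le_total |a| |c| with h3 | h3
  · exact h13 _ _ _ (step1 _ _ _ h2 h1)
  · exact h13 _ _ _ (step1 _ _ _ h2 h1)
  · exact h13 _ _ _ (h12 _ _ _ (step1 _ _ _ h2 h3))
  · exact h12 _ _ _ (step1 _ _ _ h1 h3)
  · exact h12 _ _ _ (h13 _ _ _ (step1 _ _ _ h3 h1))
  · exact h23 _ _ _ (step1 _ _ _ h3 h2)
  · exact step1 _ _ _ h1 h2
  · exact step1 _ _ _ h1 h2

section

variable {V : Set E3}

/-- closure of a set under generators of the full tetrahedral group -/
structure Inv (V : Set E3) : Prop where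
  h12 : ∀ a b c : ℝ, ![a, b, c] ∈ V → ![b, a, c] ∈ V
  h23 : ∀ a b c : ℝ, ![a, b, c] ∈ V → ![a, c, b] ∈ V
  hn : ∀ a b c : ℝ, ![a, b, c] ∈ V → ![-a, -b, c] ∈ V

lemma Inv.h13 (h : Inv V) : ∀ a b c : ℝ, ![a, b, c] ∈ V → ![c, b, a] ∈ V :=
  fun _ _ _ h' => h.h12 _ _ _ (h.h23 _ _ _ (h.h12 _ _ _ h'))

lemma Inv.hn13 (h : Inv V) : ∀ a b c : ℝ, ![a, b, c] ∈ V → ![-a, b, -c] ∈ V :=
  fun _ _ _ h' => h.h23 _ _ _ (h.hn _ _ _ (h.h23 _ _ _ h'))

lemma Inv.hn23 (h : Inv V) : ∀ a b c : ℝ, ![a, b, c] ∈ V → ![a, -b, -c] ∈ V :=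
  fun _ _ _ h' => h.h12 _ _ _ (h.hn13 _ _ _ (h.h12 _ _ _ h'))

lemma Inv.rot (h : Inv V) : ∀ a b c : ℝ, ![a, b, c] ∈ V → ![b, c, a] ∈ V :=
  fun _ _ _ h' => h.h23 _ _ _ (h.h12 _ _ _ h')

/-- the orbit of a point under the rotation group -/
def orb (a b c : ℝ) : Fin 12 → E3 := ![![a, b, c], ![-a, -b, c], ![-a, b, -c], ![a, -b, -c],
  ![b, c, a], ![-b, -c, a], ![-b, c, -a], ![b, -c, -a],
  ![c, a, b], ![-c, -a, b], ![-c, a, -b], ![c, -a, -b]]

lemma orb_mem (h : Inv V) (a b c : ℝ) (hv : ![a, b, c] ∈ V) (i : Fin 12) : orb a b c i ∈ V := by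
  have h1 := h.rot _ _ _ hv
  have h2 := h.rot _ _ _ h1
  fin_cases i
  · exact hv
  · exact h.hn _ _ _ hv
  · exact h.hn13 _ _ _ hv
  · exact h.hn23 _ _ _ hv
  · exact h1
  · exact h.hn _ _ _ h1
  · exact h.hn13 _ _ _ h1
  · exact h.hn23 _ _ _ h1
  · exact h2
  · exact h.hn _ _ _ h2
  · exact h.hn13 _ _ _ h2
  · exact h.hn23 _ _ _ h2

lemma orb_inj (a b c : ℝ) (h1 : b ≤ a) (h2 : |c| ≤ b) (h3 : 0 < b) (h4 : |c| < a) :
    Function.Injective (orb a b c) := by
  have h5 := abs_le.1 h2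
  have h6 := abs_lt.1 h4
  intro i j hij
  have e0 := congrFun hij 0
  have e1 := congrFun hij 1
  have e2 := congrFun hij 2
  fin_cases i <;> fin_cases j <;> first
    | rfl
    | (exfalso
       simp [orb] at e0 e1 e2
       linarith)

lemma orb_all (h : Inv V) (hc : V.ncard = 12) (a b c : ℝ) (hv : ![a, b, c] ∈ V) (h1 : b ≤ a)
    (h2 : |c| ≤ b) (h3 : 0 < b) (h4 : |c| < a) : V = Set.range (orb a b c) := by
  symm
  apply Set.eq_of_subset_of_ncard_le
  · rintro _ ⟨i, rfl⟩
    exact orb_mem h a b c hv i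
  · rw [← Set.image_univ, Set.ncard_image_of_injective _ (orb_inj a b c h1 h2 h3 h4),
      Set.ncard_univ, hc]
    simp
  · exact Set.finite_of_ncard_ne_zero (by rw [hc]; norm_num)

/-- a generic vertex in the chamber is the only vertex in the chamber -/
lemma chamber_unique (h : Inv V) (hc : V.ncard = 12) (a b c : ℝ) (hv : ![a, b, c] ∈ V)
    (h1 : b ≤ a) (h2 : |c| ≤ b) (h3 : 0 < b) (h4 : |c| < a) (x y z : ℝ) (hx : ![x, y, z] ∈ V)
    (h1' : y ≤ x) (h2' : |z| ≤ y) : x = a ∧ y = b ∧ z = c := by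
  have h5 := abs_le.1 h2
  have h6 := abs_lt.1 h4
  have h7 := abs_le.1 h2'
  rw [orb_all h hc a b c hv h1 h2 h3 h4] at hx
  obtain ⟨i, hi⟩ := hx
  have e0 := congrFun hi 0
  have e1 := congrFun hi 1
  have e2 := congrFun hi 2
  fin_cases i <;> simp [orb] at e0 e1 e2 <;> refine ⟨?_, ?_, ?_⟩ <;> linarith

/-- special position: on a rotation axis -/
def Sp (a b c : ℝ) : Prop :=
  (a = 0 ∧ b = 0) ∨ (b = 0 ∧ c = 0) ∨ (a = 0 ∧ c = 0) ∨ (|a| = |b| ∧ |b| = |c|)

lemma Sp12 (a b c : ℝ) (h : Sp b a c) : Sp a b c := by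
  rcases h with h | h | h | h
  · exact Or.inl ⟨h.2, h.1⟩
  · exact Or.inr (Or.inr (Or.inl h))
  · exact Or.inr (Or.inl h)
  · exact Or.inr (Or.inr (Or.inr ⟨h.1.symm, h.1.trans h.2⟩))

lemma Sp23 (a b c : ℝ) (h : Sp a c b) : Sp a b c := by
  rcases h with h | h | h | h
  · exact Or.inr (Or.inr (Or.inl h))
  · exact Or.inr (Or.inl ⟨h.2, h.1⟩)
  · exact Or.inl h
  · exact Or.inr (Or.inr (Or.inr ⟨h.1.trans h.2, h.2.symm⟩))

lemma Spn (a b c : ℝ) (h : Sp (-a) (-b) c) : Sp a b c := by
  rcases h with h | h | h | h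
  · exact Or.inl ⟨neg_eq_zero.1 h.1, neg_eq_zero.1 h.2⟩
  · exact Or.inr (Or.inl ⟨neg_eq_zero.1 h.1, h.2⟩)
  · exact Or.inr (Or.inr (Or.inl ⟨neg_eq_zero.1 h.1, h.2⟩))
  · rw [abs_neg, abs_neg] at h
    exact Or.inr (Or.inr (Or.inr h))

lemma nonspecial {a b c : ℝ} (h1 : b ≤ a) (h2 : |c| ≤ b) (h : ¬ Sp a b c) : 0 < b ∧ |c| < a := by
  have h3 : 0 ≤ b := (abs_nonneg c).trans h2
  have h4 : 0 ≤ a := h3.trans h1
  constructor
  · rcases eq_or_lt_of_le h3 with h5 | h5
    · exfalso
      apply h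
      refine Or.inr (Or.inl ⟨h5.symm, ?_⟩)
      rw [← h5] at h2
      exact abs_nonpos_iff.1 h2
    · exact h5
  · by_contra h5
    push Not at h5
    apply h
    have h6 : a = b := le_antisymm (h5.trans h2) h1
    have h7 : |c| = b := le_antisymm h2 (h6 ▸ h5)
    refine Or.inr (Or.inr (Or.inr ⟨by rw [h6], ?_⟩))
    rw [abs_of_nonneg h3, h7]

/-- the fourteen special directions -/
def U : Fin 14 → Fin 3 → ℤ := ![![1, 0, 0], ![-1, 0, 0], ![0, 1, 0], ![0, -1, 0], ![0, 0, 1],
  ![0, 0, -1], ![1, 1, 1], ![1, -1, -1], ![-1, 1, -1], ![-1, -1, 1],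
  ![1, 1, -1], ![1, -1, 1], ![-1, 1, 1], ![-1, -1, -1]]

lemma sp_dir {a b c : ℝ} (h : Sp a b c) : (a = 0 ∧ b = 0 ∧ c = 0) ∨
    ∃ k : Fin 14, ∃ t : ℝ, 0 < t ∧ a = t * U k 0 ∧ b = t * U k 1 ∧ c = t * U k 2 := by
  have single : ∀ x : ℝ, x = 0 ∨ (0 < |x| ∧ (x = |x| * ((1 : ℤ) : ℝ) ∨ x = |x| * ((-1 : ℤ) : ℝ))) := by
    intro x
    rcases lt_trichotomy x 0 with hx | hx | hx
    · right
      refine ⟨abs_pos.2 hx.ne, Or.inr ?_⟩
      rw [abs_of_neg hx]; push_cast; ring
    · exact Or.inl hx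
    · right
      refine ⟨abs_pos.2 hx.ne', Or.inl ?_⟩
      rw [abs_of_pos hx]; push_cast; ring
  rcases h with ⟨h1, h2⟩ | ⟨h1, h2⟩ | ⟨h1, h2⟩ | ⟨h1, h2⟩
  · rcases single c with h3 | ⟨h3, h4 | h4⟩
    · exact Or.inl ⟨h1, h2, h3⟩
    · exact Or.inr ⟨4, |c|, h3, by simp [U, h1], by simp [U, h2], by simpa [U] using h4⟩
    · exact Or.inr ⟨5, |c|, h3, by simp [U, h1], by simp [U, h2], by simpa [U] using h4⟩
  · rcases single a with h3 | ⟨h3, h4 | h4⟩
    · exact Or.inl ⟨h3, h1, h2⟩
    · exact Or.inr ⟨0, |a|, h3, by simpa [U] using h4, by simp [U, h1], by simp [U, h2]⟩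
    · exact Or.inr ⟨1, |a|, h3, by simpa [U] using h4, by simp [U, h1], by simp [U, h2]⟩
  · rcases single b with h3 | ⟨h3, h4 | h4⟩
    · exact Or.inl ⟨h1, h3, h2⟩
    · exact Or.inr ⟨2, |b|, h3, by simp [U, h1], by simpa [U] using h4, by simp [U, h2]⟩
    · exact Or.inr ⟨3, |b|, h3, by simp [U, h1], by simpa [U] using h4, by simp [U, h2]⟩
  · rcases single a with h3 | ⟨h3, h4⟩
    · left
      have hb : b = 0 := by rw [h3, abs_zero] at h1; exact abs_eq_zero.1 h1.symm
      refine ⟨h3, hb, ?_⟩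
      rw [hb, abs_zero] at h2; exact abs_eq_zero.1 h2.symm
    · right
      have hb : b = |a| * ((1 : ℤ) : ℝ) ∨ b = |a| * ((-1 : ℤ) : ℝ) := by
        rcases single b with h5 | ⟨_, h6⟩
        · rw [h5, abs_zero] at h1
          rw [h1] at h3
          exact absurd h3 (lt_irrefl _)
        · rw [h1]; exact h6
      have hc : c = |a| * ((1 : ℤ) : ℝ) ∨ c = |a| * ((-1 : ℤ) : ℝ) := by
        rcases single c with h5 | ⟨_, h6⟩
        · rw [h5, abs_zero] at h2
          rw [h1, h2] at h3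
          exact absurd h3 (lt_irrefl _)
        · rw [h1, h2]; exact h6
      rcases h4 with h4 | h4 <;> rcases hb with hb | hb <;> rcases hc with hc | hc
      · exact ⟨6, |a|, h3, h4, hb, hc⟩
      · exact ⟨10, |a|, h3, h4, hb, hc⟩
      · exact ⟨11, |a|, h3, h4, hb, hc⟩
      · exact ⟨7, |a|, h3, h4, hb, hc⟩
      · exact ⟨12, |a|, h3, h4, hb, hc⟩
      · exact ⟨8, |a|, h3, h4, hb, hc⟩
      · exact ⟨9, |a|, h3, h4, hb, hc⟩
      · exact ⟨13, |a|, h3, h4, hb, hc⟩

/-- the type of a special direction -/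
def ty (k : Fin 14) : Fin 3 := if k.val < 6 then 0 else if k.val < 10 then 1 else 2

/-- the representative of a type -/
def rp : Fin 3 → Fin 14 := ![0, 6, 10]

/-- membership of a multiple of a special direction in `V` -/
def Has (V : Set E3) (k : Fin 14) : Prop := ∃ t : ℝ, 0 < t ∧ t • pt (U k) ∈ V

lemma smulU (t : ℝ) (k : Fin 14) : t • pt (U k) = ![t * U k 0, t * U k 1, t * U k 2] := by
  funext i
  fin_cases i <;> simp [pt]

lemma has_type (h : Inv V) (k : Fin 14) : Has V k ↔ Has V (rp (ty k)) := by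
  have key : ∀ t : ℝ, t • pt (U k) ∈ V ↔ t • pt (U (rp (ty k))) ∈ V := by
    intro t
    have r13 := h.h13
    have n13 := h.hn13
    have n23 := h.hn23
    have r12 := h.h12
    have r23 := h.h23
    have n12 := h.hn
    rw [smulU, smulU]
    fin_cases k <;> simp [U, rp, ty]
    · constructor
      · intro h'; simpa using n12 _ _ _ h'
      · intro h'; simpa using n12 _ _ _ h'
    · constructor
      · intro h'; simpa using r12 _ _ _ h'
      · intro h'; simpa using r12 _ _ _ h'
    · constructor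
      · intro h'; simpa using n12 _ _ _ (r12 _ _ _ h')
      · intro h'; simpa using n12 _ _ _ (r12 _ _ _ h')
    · constructor
      · intro h'; simpa using r13 _ _ _ h'
      · intro h'; simpa using r13 _ _ _ h'
    · constructor
      · intro h'; simpa using n13 _ _ _ (r13 _ _ _ h')
      · intro h'; simpa using n13 _ _ _ (r13 _ _ _ h')
    · constructor
      · intro h'; simpa using n23 _ _ _ h'
      · intro h'; simpa using n23 _ _ _ h'
    · constructor
      · intro h'; simpa using n13 _ _ _ h'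
      · intro h'; simpa using n13 _ _ _ h'
    · constructor
      · intro h'; simpa using n12 _ _ _ h'
      · intro h'; simpa using n12 _ _ _ h'
    · constructor
      · intro h'; simpa using r23 _ _ _ h'
      · intro h'; simpa using r23 _ _ _ h'
    · constructor
      · intro h'; simpa using r13 _ _ _ h'
      · intro h'; simpa using r13 _ _ _ h'
    · constructor
      · intro h'; simpa using n12 _ _ _ h'
      · intro h'; simpa using n12 _ _ _ h'
  constructor
  · rintro ⟨t, ht, h'⟩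
    exact ⟨t, ht, (key t).1 h'⟩
  · rintro ⟨t, ht, h'⟩
    exact ⟨t, ht, (key t).2 h'⟩

/-- not all vertices are special -/
lemma exists_generic (h : Inv V) (hc : V.ncard = 12)
    (hext : ∀ v ∈ V, ∀ s t : ℝ, 0 < s → 0 < t → s • v ∈ V → t • v ∈ V → s = t)
    (hzero : (0 : E3) ∉ V) :
    ∃ a b c : ℝ, ![a, b, c] ∈ V ∧ b ≤ a ∧ |c| ≤ b ∧ ¬ Sp a b c := by
  classical
  by_contra hcon
  push Not at hcon
  have hall : ∀ a b c : ℝ, ![a, b, c] ∈ V → Sp a b c := by
    apply chamber (fun a b c => ![a, b, c] ∈ V → Sp a b c)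
    · intro a b c h1 h2
      exact Sp12 _ _ _ (h1 (h.h12 _ _ _ h2))
    · intro a b c h1 h2
      exact Sp23 _ _ _ (h1 (h.h23 _ _ _ h2))
    · intro a b c h1 h2
      exact Spn _ _ _ (h1 (h.hn _ _ _ h2))
    · intro a b c h1 h2 h3
      exact hcon a b c h3 h1 h2
  let K : Finset (Fin 14) := Finset.univ.filter fun k => Has V k
  have hK : ∀ k ∈ K, ∃ t : ℝ, 0 < t ∧ t • pt (U k) ∈ V := fun k hk => (Finset.mem_filter.1 hk).2
  let T : Fin 14 → ℝ := fun k => if hk : k ∈ K then (hK k hk).choose else 1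
  have hT : ∀ k ∈ K, 0 < T k ∧ T k • pt (U k) ∈ V := by
    intro k hk
    have := (hK k hk).choose_spec
    simp only [T, hk, dif_pos]
    exact this
  have hV : V = (fun k => T k • pt (U k)) '' (K : Set (Fin 14)) := by
    ext v
    constructor
    · intro hv
      have hv' : v = ![v 0, v 1, v 2] := by funext i; fin_cases i <;> rfl
      have hs := hall (v 0) (v 1) (v 2) (hv' ▸ hv)
      rcases sp_dir hs with ⟨h0, h1, h2⟩ | ⟨k, t, ht, h0, h1, h2⟩
      · exfalso
        apply hzero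
        have : v = 0 := by
          rw [hv', h0, h1, h2]
          funext i
          fin_cases i <;> rfl
        rw [← this]; exact hv
      · have hvt : v = t • pt (U k) := by
          rw [smulU, hv', ← h0, ← h1, ← h2]
        have hk : k ∈ K := Finset.mem_filter.2 ⟨Finset.mem_univ _, t, ht, hvt ▸ hv⟩
        refine ⟨k, hk, ?_⟩
        have h3 := hT k hk
        have h4 : T k / t = 1 := by
          apply hext v hv (T k / t) 1 (div_pos h3.1 ht) one_pos
          · rw [hvt, smul_smul, div_mul_cancel₀ _ ht.ne']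
            exact h3.2
          · rw [one_smul]; exact hv
        have h5 : T k = t := by
          field_simp at h4
          exact h4
        show T k • pt (U k) = v
        rw [h5, hvt]
    · rintro ⟨k, hk, rfl⟩
      exact (hT k hk).2
  have hinj : Set.InjOn (fun k => T k • pt (U k)) (K : Set (Fin 14)) := by
    intro k hk l hl hkl
    have h1 := (hT k hk).1
    have h2 := (hT l hl).1
    have h3 : ∀ i, SignType.sign (U k i) = SignType.sign (U l i) := by
      intro i
      have h4 := congrFun hkl i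
      simp only [Pi.smul_apply, pt, smul_eq_mul] at h4
      have h5 : ∀ (t : ℝ) (x : ℤ), 0 < t → SignType.sign (t * (x : ℝ)) = SignType.sign x := by
        intro t x ht
        rw [sign_mul, sign_pos ht, one_mul]
        rcases lt_trichotomy x 0 with hx | hx | hx
        · rw [sign_neg hx, sign_neg]; exact_mod_cast hx
        · rw [hx]; simp
        · rw [sign_pos hx, sign_pos]; exact_mod_cast hx
      rw [← h5 (T k) _ h1, ← h5 (T l) _ h2, h4]
    have h6 : ∀ k l : Fin 14, (∀ i, SignType.sign (U k i) = SignType.sign (U l i)) → k = l := by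
      decide +kernel
    exact h6 k l h3
  have hcard : K.card = 12 := by
    rw [← hc, hV, hinj.ncard_image, Set.ncard_coe_finset]
  have hK2 : K = Finset.univ.filter fun k => Has V (rp (ty k)) := by
    apply Finset.filter_congr
    intro k _
    exact has_type h k
  rw [hK2] at hcard
  have hgen : ∀ R : Fin 3 → Bool, (Finset.univ.filter fun k : Fin 14 => R (ty k) = true).card ≠ 12 := by
    decide +kernel
  apply hgen (fun j => decide (Has V (rp j)))
  rw [← hcard]
  congr 1
  apply Finset.filter_congr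
  intro k _
  simp

/-- in non-special directions at most two vertices are maximal -/
lemma two_max (h : Inv V) (hc : V.ncard = 12)
    (hext : ∀ v ∈ V, ∀ s t : ℝ, 0 < s → 0 < t → s • v ∈ V → t • v ∈ V → s = t)
    (hzero : (0 : E3) ∉ V) : ∀ a b c : ℝ, Sp a b c ∨ ∃ p q : E3, ∀ x y z : ℝ, ![x, y, z] ∈ V →
      (∀ x' y' z' : ℝ, ![x', y', z'] ∈ V → a * x' + b * y' + c * z' ≤ a * x + b * y + c * z) →
      (![x, y, z] = p ∨ ![x, y, z] = q) := by
  obtain ⟨w1, w2, w3, hw, hw1, hw2, hw3⟩ := exists_generic h hc hext hzero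
  obtain ⟨hw4, hw5⟩ := nonspecial hw1 hw2 hw3
  have huniq := chamber_unique h hc w1 w2 w3 hw hw1 hw2 hw4 hw5
  apply chamber (fun a b c => Sp a b c ∨ ∃ p q : E3, ∀ x y z : ℝ, ![x, y, z] ∈ V →
      (∀ x' y' z' : ℝ, ![x', y', z'] ∈ V → a * x' + b * y' + c * z' ≤ a * x + b * y + c * z) →
      (![x, y, z] = p ∨ ![x, y, z] = q))
  · rintro a b c (h1 | ⟨p, q, h1⟩)
    · exact Or.inl (Sp12 _ _ _ h1)
    · right
      refine ⟨![p 1, p 0, p 2], ![q 1, q 0, q 2], ?_⟩
      intro x y z hx hmax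
      rcases h1 y x z (h.h12 _ _ _ hx) (by
        intro x' y' z' h'
        have := hmax y' x' z' (h.h12 _ _ _ h')
        linarith) with h2 | h2
      · left; rw [← h2]; rfl
      · right; rw [← h2]; rfl
  · rintro a b c (h1 | ⟨p, q, h1⟩)
    · exact Or.inl (Sp23 _ _ _ h1)
    · right
      refine ⟨![p 0, p 2, p 1], ![q 0, q 2, q 1], ?_⟩
      intro x y z hx hmax
      rcases h1 x z y (h.h23 _ _ _ hx) (by
        intro x' y' z' h'
        have := hmax x' z' y' (h.h23 _ _ _ h')
        linarith) with h2 | h2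
      · left; rw [← h2]; rfl
      · right; rw [← h2]; rfl
  · rintro a b c (h1 | ⟨p, q, h1⟩)
    · exact Or.inl (Spn _ _ _ h1)
    · right
      refine ⟨![-p 0, -p 1, p 2], ![-q 0, -q 1, q 2], ?_⟩
      intro x y z hx hmax
      rcases h1 (-x) (-y) z (h.hn _ _ _ hx) (by
        intro x' y' z' h'
        have := hmax (-x') (-y') z' (h.hn _ _ _ h')
        linarith) with h2 | h2
      · left; rw [← h2]; simp
      · right; rw [← h2]; simp
  · intro a b c hba hcb
    by_cases hsp : Sp a b c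
    · exact Or.inl hsp
    right
    obtain ⟨hb, hca⟩ := nonspecial hba hcb hsp
    have hcb' := abs_le.1 hcb
    have hca' := abs_lt.1 hca
    have tight : ∀ x y z : ℝ, ![x, y, z] ∈ V →
      (∀ x' y' z' : ℝ, ![x', y', z'] ∈ V → a * x' + b * y' + c * z' ≤ a * x + b * y + c * z) →
        z ≤ x ∧ -z ≤ x ∧ -y ≤ x ∧ 0 ≤ (a - b) * (x - y) ∧ 0 ≤ (b - c) * (y - z) ∧
          0 ≤ (b + c) * (y + z) := by
      intro x y z hx hmax
      have i1 := hmax _ _ _ (h.h12 _ _ _ hx)
      have i2 := hmax _ _ _ (h.hn _ _ _ (h.h12 _ _ _ hx))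
      have i3 := hmax _ _ _ (h.h23 _ _ _ hx)
      have i4 := hmax _ _ _ (h.hn23 _ _ _ (h.h23 _ _ _ hx))
      have i5 := hmax _ _ _ (h.h13 _ _ _ hx)
      have i6 := hmax _ _ _ (h.hn13 _ _ _ (h.h13 _ _ _ hx))
      have j5 : 0 ≤ (a - c) * (x - z) := by linarith
      have j6 : 0 ≤ (a + c) * (x + z) := by linarith
      have j2 : 0 ≤ (a + b) * (x + y) := by linarith
      have k5 := nonneg_of_mul_nonneg_right j5 (by linarith)
      have k6 := nonneg_of_mul_nonneg_right j6 (by linarith)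
      have k2 := nonneg_of_mul_nonneg_right j2 (by linarith)
      refine ⟨by linarith, by linarith, by linarith, by linarith, by linarith, by linarith⟩
    rcases eq_or_lt_of_le hba with hab | hab
    · refine ⟨![w1, w2, w3], ![w2, w1, w3], ?_⟩
      intro x y z hx hmax
      obtain ⟨t1, t2, t3, t4, t5, t6⟩ := tight x y z hx hmax
      have t5' := nonneg_of_mul_nonneg_right t5 (by linarith)
      have t6' := nonneg_of_mul_nonneg_right t6 (by linarith)
      rcases le_total y x with hyx | hyx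
      · left
        obtain ⟨u1, u2, u3⟩ := huniq x y z hx hyx (abs_le.2 ⟨by linarith, by linarith⟩)
        rw [u1, u2, u3]
      · right
        obtain ⟨u1, u2, u3⟩ := huniq y x z (h.h12 _ _ _ hx) hyx
          (abs_le.2 ⟨by linarith, by linarith⟩)
        rw [u1, u2, u3]
    · rcases eq_or_lt_of_le hcb'.2 with hcb1 | hcb1
      · refine ⟨![w1, w2, w3], ![w1, w3, w2], ?_⟩
        intro x y z hx hmax
        obtain ⟨t1, t2, t3, t4, t5, t6⟩ := tight x y z hx hmax
        have t4' := nonneg_of_mul_nonneg_right t4 (by linarith)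
        have t6' := nonneg_of_mul_nonneg_right t6 (by linarith)
        rcases le_total z y with hzy | hzy
        · left
          obtain ⟨u1, u2, u3⟩ := huniq x y z hx (by linarith) (abs_le.2 ⟨by linarith, by linarith⟩)
          rw [u1, u2, u3]
        · right
          obtain ⟨u1, u2, u3⟩ := huniq x z y (h.h23 _ _ _ hx) (by linarith)
            (abs_le.2 ⟨by linarith, by linarith⟩)
          rw [u1, u2, u3]
      · rcases eq_or_lt_of_le hcb'.1 with hcb2 | hcb2
        · refine ⟨![w1, w2, w3], ![w1, -w3, -w2], ?_⟩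
          intro x y z hx hmax
          obtain ⟨t1, t2, t3, t4, t5, t6⟩ := tight x y z hx hmax
          have t4' := nonneg_of_mul_nonneg_right t4 (by linarith)
          have t5' := nonneg_of_mul_nonneg_right t5 (by linarith)
          rcases le_total (-z) y with hzy | hzy
          · left
            obtain ⟨u1, u2, u3⟩ := huniq x y z hx (by linarith)
              (abs_le.2 ⟨by linarith, by linarith⟩)
            rw [u1, u2, u3]
          · right
            obtain ⟨u1, u2, u3⟩ := huniq x (-z) (-y) (h.hn23 _ _ _ (h.h23 _ _ _ hx)) (by linarith)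
              (abs_le.2 ⟨by linarith, by linarith⟩)
            rw [u1, ← u2, ← u3, neg_neg, neg_neg]
        · refine ⟨![w1, w2, w3], ![w1, w2, w3], ?_⟩
          intro x y z hx hmax
          obtain ⟨t1, t2, t3, t4, t5, t6⟩ := tight x y z hx hmax
          have t4' := nonneg_of_mul_nonneg_right t4 (by linarith)
          have t5' := nonneg_of_mul_nonneg_right t5 (by linarith)
          have t6' := nonneg_of_mul_nonneg_right t6 (by linarith)
          left
          obtain ⟨u1, u2, u3⟩ := huniq x y z hx (by linarith) (abs_le.2 ⟨by linarith, by linarith⟩)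
          rw [u1, u2, u3]

end

/-! ### Conclusion -/

lemma ext_image {P : Set E3} {A : Matrix (Fin 3) (Fin 3) ℝ} (hAA : A * A = 1)
    (hP : A.mulVec '' P = P) {v : E3} (hv : v ∈ P.extremePoints ℝ) :
    A.mulVec v ∈ P.extremePoints ℝ := by
  have hinv : ∀ x, A.mulVec (A.mulVec x) = x := by
    intro x
    rw [Matrix.mulVec_mulVec, hAA, Matrix.one_mulVec]
  let f : E3 ≃ₗ[ℝ] E3 := LinearEquiv.ofInvolutive (Matrix.mulVecLin A) hinv
  have h1 := image_extremePoints (𝕜 := ℝ) f P
  have h2 : (⇑f : E3 → E3) = A.mulVec := rfl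
  rw [h2, hP] at h1
  rw [← h1]
  exact ⟨v, hv, rfl⟩

/-- three reflections and rotations -/
def A12 : Matrix (Fin 3) (Fin 3) ℝ := !![0, 1, 0; 1, 0, 0; 0, 0, 1]
/-- a reflection -/
def A23 : Matrix (Fin 3) (Fin 3) ℝ := !![1, 0, 0; 0, 0, 1; 0, 1, 0]
/-- a half-turn -/
def An : Matrix (Fin 3) (Fin 3) ℝ := !![-1, 0, 0; 0, -1, 0; 0, 0, 1]

lemma A12_mulVec (a b c : ℝ) : A12.mulVec ![a, b, c] = ![b, a, c] := by
  funext i
  fin_cases i <;> simp [A12, Matrix.mulVec, dotProduct, Fin.sum_univ_three]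

lemma A23_mulVec (a b c : ℝ) : A23.mulVec ![a, b, c] = ![a, c, b] := by
  funext i
  fin_cases i <;> simp [A23, Matrix.mulVec, dotProduct, Fin.sum_univ_three]

lemma An_mulVec (a b c : ℝ) : An.mulVec ![a, b, c] = ![-a, -b, c] := by
  funext i
  fin_cases i <;> simp [An, Matrix.mulVec, dotProduct, Fin.sum_univ_three]

lemma A12_sq : A12 * A12 = 1 := by
  ext i j
  fin_cases i <;> fin_cases j <;> simp [A12, Matrix.mul_apply, Fin.sum_univ_three]

lemma A23_sq : A23 * A23 = 1 := by
  ext i j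
  fin_cases i <;> fin_cases j <;> simp [A23, Matrix.mul_apply, Fin.sum_univ_three]

lemma An_sq : An * An = 1 := by
  ext i j
  fin_cases i <;> fin_cases j <;> simp [An, Matrix.mul_apply, Fin.sum_univ_three]

lemma mem_Tfull {A : Matrix (Fin 3) (Fin 3) ℝ} (h1 : A * A = 1) (h2 : A.transpose = A)
    (h3 : ∀ v ∈ tetra, A.mulVec v ∈ tetra) : A ∈ Tfull := by
  refine ⟨?_, ?_⟩
  · rw [Matrix.mem_orthogonalGroup_iff, h2, h1]
  · apply Set.Subset.antisymm
    · rintro _ ⟨v, hv, rfl⟩
      exact h3 v hv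
    · intro v hv
      refine ⟨A.mulVec v, h3 v hv, ?_⟩
      rw [Matrix.mulVec_mulVec, h1, Matrix.one_mulVec]

lemma A12_mem : A12 ∈ Tfull := by
  refine mem_Tfull A12_sq ?_ ?_
  · ext i j
    fin_cases i <;> fin_cases j <;> simp [A12]
  · rintro v (rfl | rfl | rfl | rfl)
    · rw [A12_mulVec]; simp [tetra]
    · rw [A12_mulVec]; simp [tetra]
    · rw [A12_mulVec]; simp [tetra]
    · rw [A12_mulVec]; simp [tetra]

lemma A23_mem : A23 ∈ Tfull := by
  refine mem_Tfull A23_sq ?_ ?_
  · ext i j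
    fin_cases i <;> fin_cases j <;> simp [A23]
  · rintro v (rfl | rfl | rfl | rfl)
    · rw [A23_mulVec]; simp [tetra]
    · rw [A23_mulVec]; simp [tetra]
    · rw [A23_mulVec]; simp [tetra]
    · rw [A23_mulVec]; simp [tetra]

lemma An_mem : An ∈ Tfull := by
  refine mem_Tfull An_sq ?_ ?_
  · ext i j
    fin_cases i <;> fin_cases j <;> simp [An]
  · rintro v (rfl | rfl | rfl | rfl)
    · rw [An_mulVec]; simp [tetra]
    · rw [An_mulVec]; simp [tetra]
    · rw [An_mulVec]; simp [tetra]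
    · rw [An_mulVec]; simp [tetra]

/-- the face of `P` in the `k`-th special direction -/
def spFace (P : Set E3) (k : Fin 14) : Set E3 :=
  {x | x ∈ P ∧ ∀ y ∈ P, fn (U k) y ≤ fn (U k) x}

lemma facets_le (P : Set E3) (hP : IsPolytope P) (hsym : ∀ A ∈ Tfull, A.mulVec '' P = P)
    (hc : (P.extremePoints ℝ).ncard = 12) : (facets P).ncard ≤ 14 := by
  obtain ⟨⟨s, hs, hPs⟩, hint⟩ := hP
  have hhull : convexHull ℝ (P.extremePoints ℝ) = P := by
    rw [hPs]; exact hull_extreme hs
  have hinv : Inv (P.extremePoints ℝ) := by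
    refine ⟨?_, ?_, ?_⟩
    · intro a b c h
      have := ext_image A12_sq (hsym _ A12_mem) h
      rwa [A12_mulVec] at this
    · intro a b c h
      have := ext_image A23_sq (hsym _ A23_mem) h
      rwa [A23_mulVec] at this
    · intro a b c h
      have := ext_image An_sq (hsym _ An_mem) h
      rwa [An_mulVec] at this
  have hconv : Convex ℝ P := by rw [hPs]; exact convex_convexHull ℝ s
  -- the origin is in `P`
  have havg : ∀ a b c : ℝ, ![a, b, c] ∈ P.extremePoints ℝ → (0 : E3) ∈ P := by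
    intro a b c h
    have e1 := h.1
    have e2 := (hinv.hn _ _ _ h).1
    have e3 := (hinv.hn13 _ _ _ h).1
    have e4 := (hinv.hn23 _ _ _ h).1
    have f1 := hconv e1 e2 (by norm_num : (0 : ℝ) ≤ 1 / 2) (by norm_num : (0 : ℝ) ≤ 1 / 2)
      (by norm_num)
    have f2 := hconv e3 e4 (by norm_num : (0 : ℝ) ≤ 1 / 2) (by norm_num : (0 : ℝ) ≤ 1 / 2)
      (by norm_num)
    have f3 := hconv f1 f2 (by norm_num : (0 : ℝ) ≤ 1 / 2) (by norm_num : (0 : ℝ) ≤ 1 / 2)
      (by norm_num)
    have : (0 : E3) = (1 / 2 : ℝ) • ((1 / 2 : ℝ) • ![a, b, c] + (1 / 2 : ℝ) • ![-a, -b, c]) +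
        (1 / 2 : ℝ) • ((1 / 2 : ℝ) • ![-a, b, -c] + (1 / 2 : ℝ) • ![a, -b, -c]) := by
      funext i
      fin_cases i <;> simp <;> ring
    rw [this]; exact f3
  have vec : ∀ v : E3, v = ![v 0, v 1, v 2] := by
    intro v; funext i; fin_cases i <;> rfl
  have hne : (P.extremePoints ℝ).Nonempty := by
    apply Set.nonempty_of_ncard_ne_zero
    rw [hc]; norm_num
  have h0P : (0 : E3) ∈ P := by
    obtain ⟨v, hv⟩ := hne
    rw [vec v] at hv
    exact havg _ _ _ hv
  have hext : ∀ v ∈ P.extremePoints ℝ, ∀ s t : ℝ, 0 < s → 0 < t → s • v ∈ P.extremePoints ℝ →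
      t • v ∈ P.extremePoints ℝ → s = t := by
    have main : ∀ v : E3, ∀ s t : ℝ, 0 < s → s < t → s • v ∈ P.extremePoints ℝ →
        t • v ∈ P.extremePoints ℝ → v = 0 := by
      intro v s t hs hst h1 h2
      have h3 := h1.2 h0P h2.1 (by
        rw [openSegment_eq_image]
        refine ⟨s / t, ⟨div_pos hs (hs.trans hst), (div_lt_one (hs.trans hst)).2 hst⟩, ?_⟩
        simp only [smul_zero, zero_add, smul_smul]
        rw [div_mul_cancel₀ _ (hs.trans hst).ne'])
      have h4 : s • v = 0 := h3.symm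
      exact (smul_eq_zero.1 h4).resolve_left hs.ne'
    have hv0 : ∀ v ∈ P.extremePoints ℝ, v ≠ 0 := by
      rintro v hv rfl
      -- an extreme point at the origin would make all vertices zero
      obtain ⟨w, hw, hw0⟩ : ∃ w ∈ P.extremePoints ℝ, w ≠ 0 := by
        by_contra hcon
        push Not at hcon
        have : P.extremePoints ℝ ⊆ {0} := fun w hw => hcon w hw
        have := Set.ncard_le_ncard this (Set.finite_singleton _)
        rw [hc, Set.ncard_singleton] at this
        omega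
      have e1 := hw
      rw [vec w] at e1
      have e2 := hinv.hn _ _ _ e1
      have e3 := hinv.hn13 _ _ _ e1
      have e4 := hinv.hn23 _ _ _ e1
      have f2 := hconv e2.1 e3.1 (by norm_num : (0 : ℝ) ≤ 1 / 2) (by norm_num : (0 : ℝ) ≤ 1 / 2)
        (by norm_num)
      have f3 := hconv f2 e4.1 (by norm_num : (0 : ℝ) ≤ 2 / 3) (by norm_num : (0 : ℝ) ≤ 1 / 3)
        (by norm_num)
      have h3 := hv.2 e1.1 f3 (by
        rw [openSegment_eq_image]
        refine ⟨3 / 4, ⟨by norm_num, by norm_num⟩, ?_⟩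
        funext i
        fin_cases i <;> simp <;> ring)
      apply hw0
      rw [vec w]; exact h3
    intro v hv s t hs ht h1 h2
    rcases lt_trichotomy s t with h | h | h
    · exact absurd (main v s t hs h h1 h2) (hv0 v hv)
    · exact h
    · exact absurd (main v t s ht h h2 h1) (hv0 v hv)
  have hzero : (0 : E3) ∉ P.extremePoints ℝ := by
    intro h
    have := hext 0 h 1 2 one_pos two_pos (by simpa using h) (by simpa using h)
    norm_num at this
  have key := two_max hinv hc hext hzero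
  have hsub : facets P ⊆ Set.range (spFace P) := by
    rintro F ⟨hF, hdim⟩
    have hFne : F.Nonempty := by
      rcases F.eq_empty_or_nonempty with h | h
      · rw [h, vectorSpan_empty, finrank_bot] at hdim
        omega
      · exact h
    have hF' := hF
    rw [← hhull] at hF'
    have hFh := face_eq_hull hF'
    obtain ⟨l, hl⟩ := hF hFne
    have hl' : ∀ x : E3, l x = l (Pi.single 0 1) * x 0 + l (Pi.single 1 1) * x 1 +
        l (Pi.single 2 1) * x 2 := by
      intro x
      have : x = x 0 • (Pi.single 0 1 : E3) + x 1 • (Pi.single 1 1 : E3) +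
          x 2 • (Pi.single 2 1 : E3) := by
        funext i
        fin_cases i <;> simp
      conv_lhs => rw [this]
      rw [map_add, map_add, map_smul, map_smul, map_smul]
      simp only [smul_eq_mul]
      ring
    generalize ha : l (Pi.single 0 1) = a at hl'
    generalize hb : l (Pi.single 1 1) = b at hl'
    generalize hcc : l (Pi.single 2 1) = c at hl'
    rcases key a b c with hsp | ⟨p, q, hpq⟩
    · rcases sp_dir hsp with ⟨h0, h1, h2⟩ | ⟨k, t, ht, h0, h1, h2⟩
      · exfalso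
        have hFP : F = P := by
          rw [hl]
          ext x
          constructor
          · exact fun h => h.1
          · intro hx
            refine ⟨hx, fun y _ => ?_⟩
            rw [hl', hl', h0, h1, h2]
            simp
        rw [hFP] at hdim
        have h3 : affineSpan ℝ P = ⊤ := by
          rw [← hhull, ← interior_convexHull_nonempty_iff_affineSpan_eq_top (s := P.extremePoints ℝ)
            |>.1 (by rw [hhull]; exact hint)]
          exact affineSpan_convexHull _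
        rw [← direction_affineSpan, h3, AffineSubspace.direction_top, finrank_top,
          Module.finrank_fintype_fun_eq_card, Fintype.card_fin] at hdim
        omega
      · refine ⟨k, ?_⟩
        rw [hl]
        have hlk : ∀ x, l x = t * fn (U k) x := by
          intro x
          rw [hl', fn_apply, h0, h1, h2]; ring
        ext x
        simp only [spFace, Set.mem_ofPred_eq]
        constructor
        · rintro ⟨hx, hm⟩
          refine ⟨hx, fun y hy => ?_⟩
          rw [hlk, hlk]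
          exact mul_le_mul_of_nonneg_left (hm y hy) ht.le
        · rintro ⟨hx, hm⟩
          refine ⟨hx, fun y hy => ?_⟩
          have := hm y hy
          rw [hlk, hlk] at this
          exact le_of_mul_le_mul_left this ht
    · exfalso
      have h1 : P.extremePoints ℝ ∩ F ⊆ {p, q} := by
        rintro v ⟨hv, hvF⟩
        have hv' := hv
        rw [vec v] at hv'
        rw [hl] at hvF
        rcases hpq _ _ _ hv' (by
          intro x' y' z' h'
          have := hvF.2 _ h'.1
          rw [hl', hl'] at this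
          simpa using this) with h | h
        · left; rw [vec v]; exact h
        · right; rw [vec v]; exact h
      have h2 : vectorSpan ℝ F ≤ vectorSpan ℝ ({p, q} : Set E3) := by
        rw [hFh, ← direction_affineSpan, affineSpan_convexHull, direction_affineSpan]
        exact vectorSpan_mono ℝ h1
      have h3 := Submodule.finrank_mono h2
      have h4 : Module.finrank ℝ (vectorSpan ℝ ({p, q} : Set E3)) ≤ 1 := by
        exact collinear_iff_finrank_le_one.1 (collinear_pair ℝ p q)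
      omega
  have hfin : (Set.range (spFace P)).Finite := Set.finite_range _
  calc (facets P).ncard ≤ (Set.range (spFace P)).ncard := Set.ncard_le_ncard hsub hfin
    _ ≤ 14 := by
      rw [← Set.image_univ]
      refine (Set.ncard_image_le Set.finite_univ).trans ?_
      rw [Set.ncard_univ]
      simp

/-- There is a pair of numbers that is the number of vertices and the number of facets of a
polytope with the rotational symmetry of the regular tetrahedron, but not of a polytope with the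
full symmetry of the regular tetrahedron. -/
theorem result : ∃ p : ℕ × ℕ, p ∈ FSet Trot ∧ p ∉ FSet Tfull := by
  refine ⟨fvec P0, ⟨P0, polytope0, sym0, rfl⟩, ?_⟩
  rintro ⟨P, hP, hsym, hf⟩
  have h1 : (P.extremePoints ℝ).ncard = 12 := by
    have := congrArg Prod.fst hf
    simp only [fvec] at this
    rw [this, card0]
  have h2 : (facets P).ncard = (facets P0).ncard := by
    have := congrArg Prod.snd hf
    simpa only [fvec] using this
  have h3 := facets_le P hP hsym h1
  have h4 := facets0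
  omega

end Pool.Agent.Results.MP_52b7e0_co.TetraDiffer
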